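import Pool.Agent.W734.TWB.Stms

/-!
# TWB-VOL: the volumes of the good configurations
-/

set_option autoImplicit false

namespace Pool.Agent.W103.TWB

open Pool.Agent.W734.TWB MeasureTheory Set Filter Topology

/-- The volume of a cube in space. -/
theorem vol_cube3 (S : Set ℝ) (hS : MeasurableSet S) :
    volume {y : E3 | ∀ a, y a ∈ S} = (volume S) ^ 3 := by
  have h1 := (PiLp.volume_preserving_ofLp (Fin 3)).measure_preimage
    (s := Set.pi univ (fun _ => S)) (MeasurableSet.univ_pi (fun _ => hS)).nullMeasurableSet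
  have h2 : {y : E3 | ∀ a, y a ∈ S} = (@WithLp.ofLp 2 (Fin 3 → ℝ)) ⁻¹' (Set.pi univ (fun _ => S)) := by
    ext y
    simp
  rw [h2, h1, volume_pi_pi]
  simp

theorem meas_cube3 (S : Set ℝ) (hS : MeasurableSet S) : MeasurableSet {y : E3 | ∀ a, y a ∈ S} := by
  have h2 : {y : E3 | ∀ a, y a ∈ S} = ⋂ a : Fin 3, (fun y : E3 => y a) ⁻¹' S := by
    ext y
    simp
  rw [h2]
  refine MeasurableSet.iInter fun a => hS.preimage ?_
  exact (EuclideanSpace.proj (𝕜 := ℝ) a).continuous.measurable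

/-- The volume of a cube in the configuration space. -/
theorem vol_cube (n : ℕ) (S : Set ℝ) (hS : MeasurableSet S) :
    volume {x : Cfg n | ∀ i a, x i a ∈ S} = ((volume S) ^ 3) ^ n := by
  have h2 : {x : Cfg n | ∀ i a, x i a ∈ S} = Set.pi univ (fun _ => {y : E3 | ∀ a, y a ∈ S}) := by
    ext y
    simp
  rw [h2, volume_pi_pi]
  simp [vol_cube3 S hS]

/-- Two particles at the same place. -/
theorem vol_diag (n : ℕ) (i l : Fin n) (h : l ≠ i) : volume {x : Cfg n | x l = x i} = 0 := by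
  let p : Cfg n →ₗ[ℝ] E3 := (LinearMap.proj (R := ℝ) (φ := fun _ : Fin n => E3) l) -
    (LinearMap.proj (R := ℝ) (φ := fun _ : Fin n => E3) i)
  have h1 : {x : Cfg n | x l = x i} = (LinearMap.ker p : Set (Cfg n)) := by
    ext x
    simp [p, sub_eq_zero]
  rw [h1]
  apply Measure.addHaar_submodule
  intro htop
  have h2 : (Pi.single l (ee 0) : Cfg n) ∈ LinearMap.ker p := by rw [htop]; trivial
  have h3 : (Pi.single l (ee 0) : Cfg n) l = (Pi.single l (ee 0) : Cfg n) i := by
    have : (Pi.single l (ee 0) : Cfg n) ∈ {x : Cfg n | x l = x i} := by rw [h1]; exact h2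
    exact this
  rw [Pi.single_eq_same, Pi.single_eq_of_ne h.symm] at h3
  have h4 := congrArg (fun y : E3 => y 0) h3
  simp [ee] at h4

/-- Configurations in the smaller box in which all particles are far from each other. -/
def Gd (n : ℕ) (τ : ℝ) : Set (Cfg n) :=
  {x | (∀ i a, x i a ∈ Set.Ico τ (1 - τ)) ∧ ∀ i l, l ≠ i → 2 * τ ≤ ‖x l - x i‖}

theorem gd_mono (n : ℕ) {τ τ' : ℝ} (h : τ' ≤ τ) : Gd n τ ⊆ Gd n τ' := by
  rintro x ⟨h1, h2⟩
  refine ⟨fun i a => ?_, fun i l hl => ?_⟩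
  · have := h1 i a
    rw [Set.mem_Ico] at this ⊢
    constructor <;> linarith [this.1, this.2]
  · have := h2 i l hl
    linarith

theorem gd_lim (n : ℕ) (κ : ℝ) (hκ : 0 < κ) :
    ∃ m : ℕ, ENNReal.ofReal (1 - κ) < volume (Gd n (1 / ((m : ℝ) + 3))) := by
  have hmono : Monotone (fun m : ℕ => Gd n (1 / ((m : ℝ) + 3))) := by
    intro m m' hm
    apply gd_mono
    have : (m : ℝ) ≤ m' := by exact_mod_cast hm
    apply one_div_le_one_div_of_le (by positivity)
    linarith
  have ht := tendsto_measure_iUnion_atTop (μ := (volume : Measure (Cfg n))) hmono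
  have hτ : Tendsto (fun m : ℕ => 1 / ((m : ℝ) + 3)) atTop (𝓝 0) := by
    have h1 : Tendsto (fun m : ℕ => (m : ℝ) + 3) atTop atTop :=
      tendsto_atTop_add_const_right _ _ tendsto_natCast_atTop_atTop
    have h2 := h1.inv_tendsto_atTop
    refine h2.congr (fun m => ?_)
    rw [Pi.inv_apply, one_div]
  have hsub : {x : Cfg n | ∀ i a, x i a ∈ Set.Ioo (0 : ℝ) 1} \
      (⋃ i : Fin n, ⋃ l : Fin n, {x : Cfg n | l ≠ i ∧ x l = x i}) ⊆
      ⋃ m : ℕ, Gd n (1 / ((m : ℝ) + 3)) := by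
    rintro x ⟨h1, h2⟩
    have h3 : ∀ i l, l ≠ i → x l ≠ x i := by
      intro i l hl he
      apply h2
      rw [Set.mem_iUnion]
      exact ⟨i, Set.mem_iUnion.2 ⟨l, hl, he⟩⟩
    have e1 : ∀ᶠ m : ℕ in atTop, ∀ i a, x i a ∈ Set.Ico (1 / ((m : ℝ) + 3)) (1 - 1 / ((m : ℝ) + 3)) := by
      rw [eventually_all]
      intro i
      rw [eventually_all]
      intro a
      have h4 := h1 i a
      have e3 := hτ.eventually_le_const h4.1
      have e4 := hτ.eventually_lt_const (show (0 : ℝ) < 1 - x i a by linarith [h4.2])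
      filter_upwards [e3, e4] with m hm1 hm2
      exact ⟨hm1, by linarith⟩
    have e2 : ∀ᶠ m : ℕ in atTop, ∀ i l, l ≠ i → 2 * (1 / ((m : ℝ) + 3)) ≤ ‖x l - x i‖ := by
      rw [eventually_all]
      intro i
      rw [eventually_all]
      intro l
      by_cases hl : l = i
      · exact Eventually.of_forall fun m h => absurd hl h
      · have h5 : 0 < ‖x l - x i‖ / 2 := by
          have := norm_pos_iff.2 (sub_ne_zero.2 (h3 i l hl))
          positivity
        have e3 := hτ.eventually_lt_const h5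
        filter_upwards [e3] with m hm _
        linarith
    obtain ⟨m, hm1, hm2⟩ := (e1.and e2).exists
    exact Set.mem_iUnion.2 ⟨m, hm1, hm2⟩
  have hnull : volume (⋃ i : Fin n, ⋃ l : Fin n, {x : Cfg n | l ≠ i ∧ x l = x i}) = 0 := by
    rw [measure_iUnion_null_iff]
    intro i
    rw [measure_iUnion_null_iff]
    intro l
    by_cases hl : l = i
    · have : {x : Cfg n | l ≠ i ∧ x l = x i} = ∅ := by
        ext x
        simp [hl]
      rw [this, measure_empty]
    · exact measure_mono_null (fun x hx => hx.2) (vol_diag n i l hl)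
  have hone : (1 : ENNReal) ≤ volume (⋃ m : ℕ, Gd n (1 / ((m : ℝ) + 3))) := by
    calc (1 : ENNReal) = volume {x : Cfg n | ∀ i a, x i a ∈ Set.Ioo (0 : ℝ) 1} := by
          rw [vol_cube n _ measurableSet_Ioo]
          simp
      _ = volume ({x : Cfg n | ∀ i a, x i a ∈ Set.Ioo (0 : ℝ) 1} \
          (⋃ i : Fin n, ⋃ l : Fin n, {x : Cfg n | l ≠ i ∧ x l = x i})) :=
          (measure_sdiff_null hnull).symm
      _ ≤ _ := measure_mono hsub
  have hlt : ENNReal.ofReal (1 - κ) < volume (⋃ m : ℕ, Gd n (1 / ((m : ℝ) + 3))) :=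
    lt_of_lt_of_le (ENNReal.ofReal_lt_one.2 (by linarith)) hone
  exact (ht.eventually_const_lt hlt).exists

theorem box_fin (n : ℕ) : volume {x : Cfg n | ∀ i a, x i a ∈ Set.Ico (0 : ℝ) 1} ≠ ⊤ := by
  rw [vol_cube n _ measurableSet_Ico]
  simp

theorem vol : S_VOL := by
  intro n κ hκ
  obtain ⟨m, hm⟩ := gd_lim n κ hκ
  have hτ0 : (0 : ℝ) < 1 / ((m : ℝ) + 3) := by positivity
  have hτ1 : 1 / ((m : ℝ) + 3) < (1 / 2 : ℝ) := by
    apply one_div_lt_one_div_of_lt (by norm_num)
    have : (0 : ℝ) ≤ m := Nat.cast_nonneg m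
    linarith
  have hico : ∀ z : ℝ, z ∈ Set.Ico (1 / ((m : ℝ) + 3)) (1 - 1 / ((m : ℝ) + 3)) →
      z ∈ Set.Ico (0 : ℝ) 1 := by
    intro z hz
    exact ⟨by linarith [hz.1], by linarith [hz.2]⟩
  refine ⟨1 / ((m : ℝ) + 3), hτ0, hτ1, ?_, ?_⟩
  · intro i j _
    have hfin : volume (goodP (n := n) (1 / ((m : ℝ) + 3)) i j) ≠ ⊤ := by
      refine measure_ne_top_of_subset ?_ (box_fin n)
      rintro x ⟨h1, h2, h3⟩ l
      by_cases hl : l = i
      · rw [hl]; exact fun a => hico _ (h1 a)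
      · by_cases hl' : l = j
        · rw [hl']; exact h2
        · exact (h3 l hl hl').1
    rw [← ENNReal.ofReal_le_iff_le_toReal hfin]
    refine le_trans hm.le (measure_mono ?_)
    rintro x ⟨h1, h2⟩
    exact ⟨fun a => h1 i a, fun a => hico _ (h1 j a),
      fun l hl _ => ⟨fun a => hico _ (h1 l a), h2 i l hl⟩⟩
  · intro i j k _ _ _
    have hfin : volume (goodT (n := n) (1 / ((m : ℝ) + 3)) i j k) ≠ ⊤ := by
      refine measure_ne_top_of_subset ?_ (box_fin n)
      rintro x ⟨h1, h2, h2', h3⟩ l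
      by_cases hl : l = i
      · rw [hl]; exact fun a => hico _ (h1 a)
      · by_cases hl' : l = j
        · rw [hl']; exact h2
        · by_cases hl'' : l = k
          · rw [hl'']; exact h2'
          · exact (h3 l hl hl' hl'').1
    rw [← ENNReal.ofReal_le_iff_le_toReal hfin]
    refine le_trans hm.le (measure_mono ?_)
    rintro x ⟨h1, h2⟩
    exact ⟨fun a => h1 i a, fun a => hico _ (h1 j a), fun a => hico _ (h1 k a),
      fun l hl _ _ => ⟨fun a => hico _ (h1 l a), h2 i l hl⟩⟩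

end Pool.Agent.W103.TWB
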